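import Pool.Agent.H883R2.OL.Problem
import Pool.Agent.H883R2.OL.Lay2
import Pool.Agent.H883R2.OL.Logic
import Pool.Agent.Y578.OL.Main

/-!
# Minimum-weight constrained outerplane Laman graphs are NP-hard in the strong sense

Given a finite set `S` of points, an outerplane drawing `D` on `S` and a number `W`, it is NP-hard
to decide whether there is a `D`-constrained outerplane Laman graph on `S` of weight at most `W`,
even if the coordinates are natural numbers, all numbers are written in unary, the points are
pairwise different and `D` has no edges.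
-/

set_option autoImplicit false

namespace Pool.Agent.Results.MP_1a3fd7_lc.ConstrainedNPHard

open Pool.Agent.NPC Pool.Agent.NPC.R671 Pool.Agent.H883R2.OL Pool.Agent.Y578.OL

/-- The segment between the end points of an edge. -/
def seg (e : Pt × Pt) : Set (ℝ × ℝ) := segment ℝ (toR e.1) (toR e.2)

/-- The union of the edges of a drawing. -/
def carrier (D : List (Pt × Pt)) : Set (ℝ × ℝ) := ⋃ e ∈ D, seg e

/-- The unbounded face of a drawing: the points of the complement which can be joined in the
complement to points arbitrarily far away. -/
def unboundedFace (D : List (Pt × Pt)) : Set (ℝ × ℝ) :=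
  {x | x ∉ carrier D ∧ ∀ R : ℝ, ∃ y, R < ‖y‖ ∧ JoinedIn (carrier D)ᶜ x y}

/-- `D` (a list of edges, given by their end points) is an outerplane drawing on the finite set `S`
of points: the edges join different points of `S` and pass through no other point of `S`, two
different edges meet in common end points only, and every point of `S` lies on the boundary of the
unbounded face. -/
structure OuterplaneDrawing (S : Finset Pt) (D : List (Pt × Pt)) : Prop where
  /-- the end points are two points of `S` -/
  ends : ∀ e ∈ D, e.1 ∈ S ∧ e.2 ∈ S ∧ e.1 ≠ e.2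
  /-- no other point of `S` is on an edge -/
  free : ∀ e ∈ D, ∀ p ∈ S, toR p ∈ seg e → p = e.1 ∨ p = e.2
  /-- edges do not cross -/
  plane : ∀ e ∈ D, ∀ e' ∈ D, ({e.1, e.2} : Finset Pt) ≠ {e'.1, e'.2} →
    seg e ∩ seg e' ⊆ toR '' (({e.1, e.2} ∩ {e'.1, e'.2} : Finset Pt) : Set Pt)
  /-- the points are on the outer face -/
  outer : ∀ p ∈ S, toR p ∈ closure (unboundedFace D)

/-- An instance, all numbers being written in unary: the points, the bound, and the edges of the
drawing. -/
abbrev CInst : Type := UInst × List ((List Unit × List Unit) × (List Unit × List Unit))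

/-- The point given by two lists of units. -/
def toPt (p : List Unit × List Unit) : Pt := ((p.1.length : ℤ), (p.2.length : ℤ))

/-- The set of points of an instance. -/
def points (x : CInst) : Finset Pt := (x.1.1.map toPt).toFinset

/-- The drawing of an instance. -/
def drawing (x : CInst) : List (Pt × Pt) := x.2.map (fun e => (toPt e.1, toPt e.2))

/-- The decision problem: is there an outerplane Laman graph on the set of points which contains the
edges of the drawing and has weight at most `W`? -/
def MinConstrainedLaman (x : CInst) : Prop :=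
  ∃ E, OuterplaneLaman (points x) E ∧ (∀ e ∈ drawing x, {e.1, e.2} ∈ E) ∧
    weight E ≤ (x.1.2.length : ℝ)

/-- The instances to which hardness is restricted: the points are pairwise different, the drawing is
an outerplane drawing on them, and it has no edges. -/
def Restricted (x : CInst) : Prop :=
  x.1.1.Nodup ∧ OuterplaneDrawing (points x) (drawing x) ∧ x.2 = []

theorem outerplane_nil (S : Finset Pt) : OuterplaneDrawing S [] where
  ends e he := by simp at he
  free e he := by simp at he
  plane e he := by simp at he
  outer p _ := by
    refine subset_closure ⟨by simp [carrier], fun R => ?_⟩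
    refine ⟨((|R| + 1, 0) : ℝ × ℝ), ?_, ?_⟩
    · have h1 : ‖((|R| + 1 : ℝ))‖ ≤ ‖((|R| + 1, 0) : ℝ × ℝ)‖ := norm_fst_le (|R| + 1, (0 : ℝ))
      have h2 : R < ‖((|R| + 1 : ℝ))‖ := by
        rw [Real.norm_eq_abs]
        have := le_abs_self R
        have := le_abs_self (|R| + 1)
        linarith
      exact lt_of_lt_of_le h2 h1
    · have h : (carrier [])ᶜ = Set.univ := by simp [carrier]
      rw [h, joinedIn_univ]
      exact PathConnectedSpace.joined _ _

/-- Correctness of the layout (the earlier result of `MP_17cbde_lc`). -/
theorem equiv (K m : ℕ) (inc : ℕ → ℕ → Bool) (hK : 2 ≤ K) (hK2 : K % 2 = 0) (hm : 1 ≤ m) (N : ℕ)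
    (hN : N = 100 * ((K + 6 * m + 4) * (5 * K))) :
    (∃ σ, Sats K m inc σ) ↔
      ∃ E, OuterplaneLaman (pts N (kd K m inc) (cells K m inc)) E ∧
        weight E ≤ (thr N (kd K m inc) (cells K m inc) : ℝ) := by
  have hA : 120 ≤ (K + 6 * m + 4) * (5 * K) :=
    calc 120 = 12 * 10 := rfl
      _ ≤ (K + 6 * m + 4) * (5 * K) := Nat.mul_le_mul (by omega) (by omega)
  have hc : (cells K m inc).card ≤ (K + 6 * m + 4) * (5 * K) := by
    unfold cells
    refine (Finset.card_filter_le _ _).trans ?_
    rw [Finset.card_product, Finset.card_range, Finset.card_range]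
  constructor
  · rintro ⟨σ, hσ⟩
    obtain ⟨T, h1, h2⟩ := exists_light K m inc hK hK2 hm N (by omega) σ hσ
    exact ⟨edges T, Or.inr ⟨T, h1, rfl⟩, h2⟩
  · rintro ⟨E, h1 | ⟨T, h1, rfl⟩, h2⟩
    · exfalso
      have hroot : (0, 1) ∈ cells K m inc := by
        rw [mem_cells, Pool.Agent.H883R2.OL.kd_root K m inc hK]; norm_num
      have hsub : cpts N (kd K m inc) (0, 1) ⊆ pts N (kd K m inc) (cells K m inc) := by
        intro P hP
        exact mem_pts.2 ⟨(0, 1), hroot, hP⟩
      have h3 := Finset.card_le_card hsub
      rw [card_cpts, Pool.Agent.H883R2.OL.kd_root K m inc hK, h1.1] at h3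
      have h4 : (offs 1).length = 4 := rfl
      omega
    · obtain ⟨Lk, hL⟩ := linkRel_of_light K m inc hK N (by omega) T h1 h2
      exact sat_of_linkRel K m inc hK hK2 hm hL

theorem hardUnary : HardPr Distinct MinLamanUnary := by
  refine hardPr_BSat.trans (Pr' := Distinct) instU_poly
    (fun φ _ => instU_distinct φ) ?_
  rintro φ ⟨h1, h2⟩
  rw [bsat_iff, equiv (rK φ) (rm φ) (rinc φ) (by unfold rK; omega) (by unfold rK; omega)
    (List.length_pos_iff.2 h1) (rN φ) rfl]
  unfold MinLamanUnary MinLaman
  rw [toFinset_eq, rpts_toFinset, numbers_instU, ← rthr_eq, Int.cast_natCast]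

/-- **The constrained problem is strongly `NP`-hard**: every language in `NP` reduces, by a
polynomial-time many-one reduction all of whose values are instances with pairwise different points
and a drawing without edges, to the question whether there is a `D`-constrained outerplane Laman
graph on `S` of weight at most `W`, all numbers being written in unary. -/
theorem result : NPHardOn Restricted MinConstrainedLaman := by
  refine toNPHardOn (hardUnary.trans (Pr' := Restricted) (f := fun x : UInst => ((x, []) : CInst))
    (NPC.Poly.pair NPC.Poly.id (NPC.Poly.const _)) (fun x hx => ⟨hx, outerplane_nil _, rfl⟩) ?_)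
  intro x _
  unfold MinLamanUnary MinLaman MinConstrainedLaman
  constructor
  · rintro ⟨E, h1, h2⟩
    refine ⟨E, h1, fun e he => by simp [drawing] at he, ?_⟩
    simpa [numbers] using h2
  · rintro ⟨E, h1, -, h2⟩
    refine ⟨E, h1, ?_⟩
    simpa [numbers] using h2

end Pool.Agent.Results.MP_1a3fd7_lc.ConstrainedNPHard
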